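import Pool.Agent.X158.ArrFinal

/-!
# MP_fa8579_co, Q1: `a(k) = 2 k (k - 1)`

For every `k ≥ 2` the maximum of `q_1 + ... + q_k - n` over all simple arrangements of `n` lines in
the real projective plane and all `k` distinct faces is `2 k (k - 1)`.

Lower bound: the common tangents of `k` tiny circles with centres in general position: `n = 2k(k-1)`
lines, and each of the `k` faces around the centres has `4 (k - 1)` sides.  Upper bound: two
distinct faces have at most four common bounding lines.
-/

namespace Pool.Agent.Results.MP_fa8579_co.ExactValue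

open Pool.Agent.X158.Arr

/-- **The exact value of `a(k)`.** -/
theorem result (k : ℕ) (hk : 2 ≤ k) :
    IsGreatest {m : ℤ | ∃ (ι : Type) (_ : Fintype ι) (a : ι → Fin 3 → ℝ)
      (F : Fin k → Set (Fin 3 → ℝ)), IsSimpleArrangement a ∧ (∀ i, IsFace a (F i)) ∧
      Function.Injective F ∧ m = (∑ i, (numSides a (F i) : ℤ)) - Fintype.card ι}
    (2 * (k : ℤ) * ((k : ℤ) - 1)) := by
  constructor
  · obtain ⟨a, F, ha, hF, hinj, hn⟩ := lower k hk
    refine ⟨Idx k, inferInstance, a, F, ha, hF, hinj, ?_⟩
    apply le_antisymm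
    · have h1 : (∑ _i : Fin k, ((4 * (k - 1) : ℕ) : ℤ)) ≤ ∑ i, (numSides a (F i) : ℤ) :=
        Finset.sum_le_sum fun i _ => by exact_mod_cast hn i
      rw [Finset.sum_const, Finset.card_univ, Fintype.card_fin, nsmul_eq_mul] at h1
      have h2 : ((4 * (k - 1) : ℕ) : ℤ) = 4 * ((k : ℤ) - 1) := by
        push_cast [Nat.cast_sub (by omega : 1 ≤ k)]
        ring
      have h3 : (Fintype.card (Idx k) : ℤ) = 2 * ((k : ℤ) * k - k) := by
        rw [card_Idx]
        have : k ≤ k * k := Nat.le_mul_of_pos_left k (by omega)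
        push_cast [Nat.cast_sub this]
        ring
      rw [h2] at h1
      rw [h3]
      nlinarith
    · exact upper hF hinj
  · rintro m ⟨ι, _, a, F, _, hF, hinj, rfl⟩
    exact upper hF hinj

end Pool.Agent.Results.MP_fa8579_co.ExactValue
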